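import Pool.Agent.Lib.MP_d2f538_an.Main

/-!
# Total integrability of Minkowski billiards forces an ellipse (no symmetry assumed)

Let `γ` be a `C²` strictly convex closed curve bounding the domain `K`, with the origin in `K`.
If the Minkowski billiard map of `K`, for the (possibly asymmetric) norm `gauge K`, is totally
integrable in the whole phase cylinder, then `γ` is an ellipse centred at the origin.
-/

open Set Pool.Agent.MP_d2f538_an

namespace Pool.Agent.Results.MP_d2f538_an.EllipseRigidity

/-- If the Minkowski billiard map of the table `K` bounded by `γ` is totally integrable in the
whole phase cylinder, then `γ` is the image of the Euclidean unit circle under an invertible real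
linear map of the plane, that is, an ellipse centred at the origin. -/
theorem result {K : Set ℂ} {γ : ℝ → ℂ} {ℓ : ℝ} (hK : IsTable K γ ℓ)
    (hT : TotallyIntegrable K γ ℓ) :
    ∃ A : ℂ ≃L[ℝ] ℂ, range γ = A '' Metric.sphere 0 1 :=
  main hK hT

end Pool.Agent.Results.MP_d2f538_an.EllipseRigidity
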